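import Pool.Agent.LSG.StmtsC

/-!
# Squad LSG, row CZS (MP_005a41_gt): `X × [0, 1]` is S-stable
-/

set_option autoImplicit false

open MeasureTheory Set Topology
open scoped BigOperators Pointwise

namespace Pool.Agent.LSG.H51

/-- Absorption: if `Z` is complemented in `E` and `Z ≃ Z × Z`, then `E ≃ E × Z`. -/
theorem absorb (E Z : Type) [AddCommGroup E] [Module ℝ E] [TopologicalSpace E]
    [IsTopologicalAddGroup E] [AddCommGroup Z] [Module ℝ Z] [TopologicalSpace Z]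
    (hc : Compl Z E) (hz : Nonempty (Z ≃L[ℝ] (Z × Z))) : Nonempty (E ≃L[ℝ] (E × Z)) := by
  obtain ⟨i, p, hip⟩ := hc
  obtain ⟨e⟩ := hz
  have s : E ≃L[ℝ] (Z × p.ker) := ContinuousLinearEquiv.equivOfRightInverse p i hip
  have s1 : (Z × p.ker) ≃L[ℝ] ((Z × Z) × p.ker) :=
    e.prodCongr (ContinuousLinearEquiv.refl ℝ p.ker)
  have s2 : ((Z × Z) × p.ker) ≃L[ℝ] (Z × Z × p.ker) := ContinuousLinearEquiv.prodAssoc ℝ Z Z p.ker
  have s3 : (Z × Z × p.ker) ≃L[ℝ] (Z × E) := (ContinuousLinearEquiv.refl ℝ Z).prodCongr s.symm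
  have s4 : (Z × E) ≃L[ℝ] (E × Z) := ContinuousLinearEquiv.prodComm ℝ Z E
  exact ⟨(((s.trans s1).trans s2).trans s3).trans s4⟩

/-- Row CZS. -/
theorem czs (h1 : CzeStmt) (h2 : CziStmt) : CzsStmt := by
  intro X _
  obtain ⟨⟨e1⟩, _, e3⟩ := h1 (X × unitInterval)
  obtain ⟨e⟩ := absorb _ _ (h2 X) e3
  exact ⟨e.trans e1.symm⟩

end Pool.Agent.LSG.H51
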